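import Pool.Agent.Lib.MP_1a91b9_ntT.CF.Frob
import Pool.Agent.Lib.MP_1a91b9_ntT.DB.Od

/-!
# Frobenius elements lift to Frobenius elements

PROOF. `Gal(L/k) → Gal(N/k)` is surjective (`AlgEquiv.restrictNormalHom_surjective`): `τ₁` a lift of `σ`. `W = W'.under (𝓞 N)`; `gpl σ W = W`
(if `x ∈ W` then `σ x = (σ x - x^m) + x^m ∈ W`, maximal ideals). `gpl τ₁ W'` lies over `gpl σ W = W`, so there is `h ∈ Gal(L/N)` with
`gpl h (gpl τ₁ W') = W'` (`gpl_trans`); `τ₂ = h τ₁` (`h` as an element of `Gal(L/k)`: `AlgEquiv.restrictScalars k h`). `τ₂` fixes `W'` and acts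
on `κ' = 𝓞 L/W'` by an automorphism which is `x ↦ x^m` on the image of `𝓞 N`. `m = p^j` is a power of the residue characteristic so `Φ : x ↦ x^m` is
an automorphism of the finite field `κ'`; `Φ ∘ τ₂⁻¹` is the identity on the image of `κ = 𝓞 N/W`, so it comes from an element `h'` of the
decomposition group of `W'` in `Gal(L/N)` (`Ideal.Quotient.stabilizerHom_surjective`). `τ = h' τ₂`.
(Other way: a Frobenius element of `W'` over `N` and powers.)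
-/

set_option autoImplicit false

namespace Pool.Agent.Lib.MP_1a91b9_ntX.OF

open NumberField IsDedekindDomain Pool.Agent.Lib.MP_1a91b9_ntT Pool.Agent.Lib.MP_1a91b9_ntT.DB

universe u

private theorem lft_charP {κ : Type*} [Field κ] {p : ℕ} (hp : p.Prime) (h : (p : κ) = 0) :
    CharP κ p := by
  obtain ⟨q, hq⟩ := CharP.exists κ
  have h1 : q ∣ p := (CharP.cast_eq_zero_iff κ q p).1 h
  rcases (Nat.dvd_prime hp).1 h1 with h2 | h2
  · exact absurd h2 (CharP.char_ne_one κ q)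
  · rw [← h2]
    exact hq

/-- the step over `N`: an automorphism of `L` which fixes `W'` and acts as a power of the Frobenius
on the residue field of `N` can be corrected by an automorphism over `N` -/
private theorem lft_step {N L : Type u} [Field N] [NumberField N] [Field L] [NumberField L]
    [Algebra N L] [IsGalois N L] (W' : HeightOneSpectrum (𝓞 L)) {p m j : ℕ} (hp : p.Prime)
    (hpW : (p : 𝓞 L) ∈ W'.asIdeal) (hm : m = p ^ j) (T : 𝓞 L ≃+* 𝓞 L) (S : 𝓞 N ≃+* 𝓞 N)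
    (hT : ∀ x : 𝓞 L, T x ∈ W'.asIdeal ↔ x ∈ W'.asIdeal)
    (hTS : ∀ x : 𝓞 N, T (algebraMap (𝓞 N) (𝓞 L) x) = algebraMap (𝓞 N) (𝓞 L) (S x))
    (hS : ∀ x : 𝓞 N, S x - x ^ m ∈ (W'.under (𝓞 N)).asIdeal) :
    ∃ g : Gal(L/N), ∀ x : 𝓞 L, g • (T x) - x ^ m ∈ W'.asIdeal := by
  classical
  have hmax : W'.asIdeal.IsMaximal := W'.isMaximal
  have hprime : W'.asIdeal.IsPrime := W'.isPrime
  have hfin : Finite (𝓞 L ⧸ W'.asIdeal) := Ideal.finiteQuotientOfFreeOfNeBot _ W'.ne_bot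
  let _ : Field (𝓞 L ⧸ W'.asIdeal) := Ideal.Quotient.field W'.asIdeal
  have hp0 : ((p : ℕ) : 𝓞 L ⧸ W'.asIdeal) = 0 := by
    rw [← map_natCast (Ideal.Quotient.mk W'.asIdeal)]
    exact Ideal.Quotient.eq_zero_iff_mem.2 hpW
  have : CharP (𝓞 L ⧸ W'.asIdeal) p := lft_charP hp hp0
  have : Fact p.Prime := ⟨hp⟩
  have : ExpChar (𝓞 L ⧸ W'.asIdeal) p := ExpChar.prime hp
  let ρ : (𝓞 L ⧸ W'.asIdeal) →+* (𝓞 L ⧸ W'.asIdeal) :=
    Ideal.quotientMap W'.asIdeal (T : 𝓞 L →+* 𝓞 L) (fun x hx => (hT x).2 hx)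
  have hρ : ∀ x : 𝓞 L, ρ (Ideal.Quotient.mk W'.asIdeal x) = Ideal.Quotient.mk W'.asIdeal (T x) :=
    fun x => rfl
  let R : (𝓞 L ⧸ W'.asIdeal) ≃+* (𝓞 L ⧸ W'.asIdeal) :=
    RingEquiv.ofBijective ρ ((Finite.injective_iff_bijective).1 ρ.injective)
  let Φ : (𝓞 L ⧸ W'.asIdeal) →+* (𝓞 L ⧸ W'.asIdeal) :=
    iterateFrobenius (𝓞 L ⧸ W'.asIdeal) p j
  have hΦ : ∀ y, Φ y = y ^ m := by
    intro y
    rw [hm]
    exact iterateFrobenius_def p j y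
  let F : (𝓞 L ⧸ W'.asIdeal) ≃+* (𝓞 L ⧸ W'.asIdeal) :=
    RingEquiv.ofBijective Φ ((Finite.injective_iff_bijective).1 Φ.injective)
  have hlo : W'.asIdeal.LiesOver (W'.under (𝓞 N)).asIdeal := ⟨rfl⟩
  let θ₀ : (𝓞 L ⧸ W'.asIdeal) ≃+* (𝓞 L ⧸ W'.asIdeal) := R.symm.trans F
  have hθ₀ : ∀ x : 𝓞 L, θ₀ (Ideal.Quotient.mk W'.asIdeal (T x)) =
      (Ideal.Quotient.mk W'.asIdeal x) ^ m := by
    intro x
    have h1 : R.symm (Ideal.Quotient.mk W'.asIdeal (T x)) = Ideal.Quotient.mk W'.asIdeal x := by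
      rw [RingEquiv.symm_apply_eq]
      rfl
    change F (R.symm (Ideal.Quotient.mk W'.asIdeal (T x))) = _
    rw [h1]
    exact hΦ _
  let θ : (𝓞 L ⧸ W'.asIdeal) ≃ₐ[𝓞 N ⧸ (W'.under (𝓞 N)).asIdeal] (𝓞 L ⧸ W'.asIdeal) :=
    AlgEquiv.ofRingEquiv (f := θ₀) (by
      intro y
      obtain ⟨a, rfl⟩ := Ideal.Quotient.mk_surjective y
      have h1 : algebraMap (𝓞 N ⧸ (W'.under (𝓞 N)).asIdeal) (𝓞 L ⧸ W'.asIdeal)
          (Ideal.Quotient.mk _ a) = Ideal.Quotient.mk W'.asIdeal (algebraMap (𝓞 N) (𝓞 L) a) := rfl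
      have h2 : algebraMap (𝓞 N) (𝓞 L) a = T (algebraMap (𝓞 N) (𝓞 L) (S.symm a)) := by
        rw [hTS, RingEquiv.apply_symm_apply]
      rw [h1]
      conv_lhs => rw [h2]
      rw [hθ₀, ← map_pow, ← map_pow, eq_comm, Ideal.Quotient.eq, ← map_sub]
      have h3 := hS (S.symm a)
      rw [RingEquiv.apply_symm_apply] at h3
      exact h3)
  obtain ⟨g, hg⟩ := Ideal.Quotient.stabilizerHom_surjective Gal(L/N) (W'.under (𝓞 N)).asIdeal
    W'.asIdeal θ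
  refine ⟨g, fun x => ?_⟩
  have h1 : Ideal.Quotient.mk W'.asIdeal ((g : Gal(L/N)) • (T x)) =
      θ₀ (Ideal.Quotient.mk W'.asIdeal (T x)) := by
    have h2 := congrArg (fun f => f (Ideal.Quotient.mk W'.asIdeal (T x))) hg
    exact h2
  rw [hθ₀, ← map_pow, Ideal.Quotient.eq] at h1
  exact h1

theorem lift_frob {k N L : Type u} [Field k] [NumberField k] [Field N] [NumberField N]
    [Field L] [NumberField L] [Algebra k N] [Algebra k L] [Algebra N L] [IsScalarTower k N L]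
    [IsGalois k N] [IsGalois k L] [IsGalois N L] (W' : HeightOneSpectrum (𝓞 L))
    (σ : Gal(N/k)) {p m j : ℕ} (hp : p.Prime) (hpW : (p : 𝓞 L) ∈ W'.asIdeal) (hm : m = p ^ j)
    (hσ : ∀ x : 𝓞 N, σ • x - x ^ m ∈ (W'.under (𝓞 N)).asIdeal) :
    ∃ τ : Gal(L/k), (∀ x : N, τ (algebraMap N L x) = algebraMap N L (σ x)) ∧
      ∀ x : 𝓞 L, τ • x - x ^ m ∈ W'.asIdeal := by
  classical
  have hm1 : 1 ≤ m := by
    rw [hm]
    exact Nat.one_le_pow _ _ hp.pos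
  obtain ⟨τ₁, hτ₁⟩ := AlgEquiv.restrictNormalHom_surjective (F := k) (K₁ := N) L σ
  have hc₁ : ∀ x : N, τ₁ (algebraMap N L x) = algebraMap N L (σ x) := by
    intro x
    rw [← hτ₁]
    exact (AlgEquiv.restrictNormal_commutes τ₁ N x).symm
  have hc₁' : ∀ x : 𝓞 N, τ₁ • (algebraMap (𝓞 N) (𝓞 L) x) = algebraMap (𝓞 N) (𝓞 L) (σ • x) := by
    intro x
    apply RingOfIntegers.ext
    exact hc₁ (x : N)
  have hmem : ∀ x : 𝓞 N, σ⁻¹ • x ∈ (W'.under (𝓞 N)).asIdeal ↔ x ∈ (W'.under (𝓞 N)).asIdeal := by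
    intro x
    have h := hσ (σ⁻¹ • x)
    rw [smul_inv_smul] at h
    constructor
    · intro hx
      have h1 : (σ⁻¹ • x) ^ m ∈ (W'.under (𝓞 N)).asIdeal :=
        Ideal.pow_mem_of_mem _ hx m (by omega)
      have h2 := Ideal.add_mem _ h h1
      rwa [sub_add_cancel] at h2
    · intro hx
      have h1 : (σ⁻¹ • x) ^ m ∈ (W'.under (𝓞 N)).asIdeal := by
        have h2 := Ideal.sub_mem _ hx h
        rwa [sub_sub_cancel] at h2
      exact (W'.under (𝓞 N)).isPrime.mem_of_pow_mem m h1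
  have hunder : (gpl τ₁ W').under (𝓞 N) = W'.under (𝓞 N) := by
    apply HeightOneSpectrum.ext
    ext x
    change τ₁⁻¹ • algebraMap (𝓞 N) (𝓞 L) x ∈ W'.asIdeal ↔
      algebraMap (𝓞 N) (𝓞 L) x ∈ W'.asIdeal
    have h1 : τ₁⁻¹ • algebraMap (𝓞 N) (𝓞 L) x = algebraMap (𝓞 N) (𝓞 L) (σ⁻¹ • x) := by
      rw [inv_smul_eq_iff, hc₁', smul_inv_smul]
    rw [h1]
    exact hmem x
  obtain ⟨h, hh⟩ := gpl_trans (k := N) (gpl τ₁ W') W' hunder
  let τ₂ : Gal(L/k) := (AlgEquiv.restrictScalars k h) * τ₁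
  have hτ₂ : ∀ x : 𝓞 L, τ₂ • x = h • (τ₁ • x) := fun x => rfl
  have hT : ∀ x : 𝓞 L, τ₂ • x ∈ W'.asIdeal ↔ x ∈ W'.asIdeal := by
    intro x
    have h1 : τ₂ • x ∈ (gpl h (gpl τ₁ W')).asIdeal ↔ x ∈ W'.asIdeal := by
      change τ₁⁻¹ • (h⁻¹ • (τ₂ • x)) ∈ W'.asIdeal ↔ _
      rw [hτ₂, inv_smul_smul, inv_smul_smul]
    rwa [hh] at h1
  have hc₂ : ∀ x : N, τ₂ (algebraMap N L x) = algebraMap N L (σ x) := by
    intro x
    change h (τ₁ (algebraMap N L x)) = _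
    rw [hc₁]
    exact h.commutes _
  have hc₂' : ∀ x : 𝓞 N, τ₂ • (algebraMap (𝓞 N) (𝓞 L) x) = algebraMap (𝓞 N) (𝓞 L) (σ • x) := by
    intro x
    apply RingOfIntegers.ext
    exact hc₂ (x : N)
  obtain ⟨g, hg⟩ := lft_step (N := N) W' hp hpW hm
    (MulSemiringAction.toRingEquiv Gal(L/k) (𝓞 L) τ₂)
    (MulSemiringAction.toRingEquiv Gal(N/k) (𝓞 N) σ) hT hc₂' hσ
  refine ⟨(AlgEquiv.restrictScalars k g) * τ₂, ?_, ?_⟩
  · intro x
    change g (τ₂ (algebraMap N L x)) = _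
    rw [hc₂]
    exact g.commutes _
  · intro x
    exact hg x

/-- the case of the norm of the place below -/
theorem lift_frob_norm {k N L : Type u} [Field k] [NumberField k] [Field N] [NumberField N]
    [Field L] [NumberField L] [Algebra k N] [Algebra k L] [Algebra N L] [IsScalarTower k N L]
    [IsGalois k N] [IsGalois k L] [IsGalois N L] (W' : HeightOneSpectrum (𝓞 L))
    (σ : Gal(N/k))
    (hσ : ∀ x : 𝓞 N, σ • x - x ^ (Ideal.absNorm (W'.under (𝓞 k)).asIdeal) ∈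
      (W'.under (𝓞 N)).asIdeal) :
    ∃ τ : Gal(L/k), (∀ x : N, τ (algebraMap N L x) = algebraMap N L (σ x)) ∧
      ∀ x : 𝓞 L, τ • x - x ^ (Ideal.absNorm (W'.under (𝓞 k)).asIdeal) ∈ W'.asIdeal := by
  classical
  have hmax : W'.asIdeal.IsMaximal := W'.isMaximal
  set v : HeightOneSpectrum (𝓞 k) := W'.under (𝓞 k) with hv
  have hvm : v.asIdeal.IsMaximal := v.isMaximal
  let _ : Field (𝓞 k ⧸ v.asIdeal) := Ideal.Quotient.field v.asIdeal
  have hfin : Finite (𝓞 k ⧸ v.asIdeal) := Ideal.finiteQuotientOfFreeOfNeBot _ v.ne_bot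
  let _ : Fintype (𝓞 k ⧸ v.asIdeal) := Fintype.ofFinite _
  obtain ⟨p, hpc⟩ := CharP.exists (𝓞 k ⧸ v.asIdeal)
  obtain ⟨j, hp, hcard⟩ := FiniteField.card (𝓞 k ⧸ v.asIdeal) p
  have hnorm : Ideal.absNorm v.asIdeal = p ^ (j : ℕ) := by
    rw [Ideal.absNorm_apply, Submodule.cardQuot_apply, Nat.card_eq_fintype_card]
    exact hcard
  have hpv : (p : 𝓞 k) ∈ v.asIdeal := by
    rw [← Ideal.Quotient.eq_zero_iff_mem, map_natCast]
    exact CharP.cast_eq_zero _ p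
  have hpW : (p : 𝓞 L) ∈ W'.asIdeal := by
    have h1 : algebraMap (𝓞 k) (𝓞 L) (p : 𝓞 k) ∈ W'.asIdeal := hpv
    rwa [map_natCast] at h1
  exact lift_frob W' σ hp hpW hnorm hσ

end Pool.Agent.Lib.MP_1a91b9_ntX.OF
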