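import Pool.Agent.Lib.MP_1a91b9_ntX.OF.PowG
import Pool.Agent.Lib.MP_1a91b9_ntX.OF.Lft

/-!
# The curve `y² + y = x³`: the Frobenius acts on all torsion points prime to the place as `ψ`

PROOF. `exists_gamma`: a prime number `r` congruent to `2` modulo `3` with `r > M` (Dirichlet: `Nat.forall_exists_prime_gt_and_eq_mod`) for a large `M`;
`γ' = -r` is a prime element of `𝓞 K` (inert: norm `r^2`, no element of norm `r`: or `IsCyclotomicExtension`/the lemmas for inert primes in S1..S10,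
`grep -rn inert`; `PD` with `q = ℓ ^ 2`), `3 ∣ γ' - 1`.
`frob_all`: `v = w ∩ k`, `v ∩ K = (β)`, `β` prime, `3 ∣ β - 1`, `psi k v = β^f`, `N v = (N β)^f` (as in the proof of `DS.frob_psi`, copy). Take `γ' = -r` with
`r` prime to `γ`, to `w` and to `β` (`exists_gamma` with `M` larger than the norm of `γ β` and the residue characteristic). `L` from
`exists_ext k N` (`k0 = k`, `k = N`; `L/k` Galois) for `γ'`, `R : Pt L`, `Ord γ' R`. `W'` a place of `L` above `w`, `τ` from `lift_frob_norm`.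
`P' = pm P`. `ga τ R = sm (β^f) R` by `DS.frob_psi` (`n = r`). `X = P' + R` is killed by `γ γ'`; `3 • X ≠ 0` (else `γ` times it gives `3 γ R = 0`, `γ' ∣ 3 γ`).
`pow_iterG`: `yc (sm (β^f) X) = yc X ^ (N v) = τ (yc X) = yc (ga τ X)` modulo `W'` (`yc X` is integral at `W'`: approximate by an integer, as at the end of
the proof of `y_frob`). `y_inj`: `sm (β^f) X - om^i (ga τ X)` is in the kernel at `W'` for an `i`, killed by `γ γ'` (`ga_sm`), so `0`:
`sm (β^f) X = om^i (ga τ X)`. Apply `sm γ`: `γ β^f R = om^i γ (ga τ R) = om^i γ β^f R`, so `γ' ∣ (1 - om^i) γ β^f`, `i = 0` (`1 - om^i` divides `3`,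
`γ'` is prime and does not divide `3`, `γ`, `β`). Then `sm (β^f) P' = ga τ P'`, `pm_inj`.
-/

set_option autoImplicit false

namespace Pool.Agent.Lib.MP_1a91b9_ntX.OF

open NumberField IsDedekindDomain WeierstrassCurve Pool.Agent.Lib.MP_1a91b9_ntT
open Pool.Agent.Lib.MP_1a91b9_ntT.DB Pool.Agent.Lib.MP_1a91b9_ntT.DS

universe u

private theorem frobA_over {N L : Type u} [Field N] [NumberField N] [Field L] [NumberField L]
    [Algebra N L] (W : HeightOneSpectrum (𝓞 N)) :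
    ∃ W' : HeightOneSpectrum (𝓞 L), W'.under (𝓞 N) = W := by
  have i3 : W.asIdeal.IsPrime := W.isPrime
  obtain ⟨Q, hQ1, hQ2⟩ := (inferInstance : Nonempty (W.asIdeal.primesOver (𝓞 L)))
  have hb : Q ≠ ⊥ := Ideal.ne_bot_of_mem_primesOver W.ne_bot ⟨hQ1, hQ2⟩
  refine ⟨⟨Q, hQ1, hb⟩, ?_⟩
  apply HeightOneSpectrum.ext
  exact hQ2.over.symm

private theorem frobA_mem {F k N : Type*} [Field F] [NumberField F] [Field k] [NumberField k]
    [Field N] [NumberField N] [Algebra F k] [Algebra k N] [Algebra F N] [IsScalarTower F k N]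
    (w : HeightOneSpectrum (𝓞 N)) (b : 𝓞 F)
    (hb : b ∈ ((w.under (𝓞 k)).under (𝓞 F)).asIdeal) :
    w.valuation N (algebraMap F N (b : F)) < 1 := by
  have h1 : algebraMap (𝓞 F) (𝓞 k) b ∈ (w.under (𝓞 k)).asIdeal := hb
  have h2 : algebraMap (𝓞 k) (𝓞 N) (algebraMap (𝓞 F) (𝓞 k) b) ∈ w.asIdeal := h1
  have h3 := (w.valuation_lt_one_iff_mem (K := N)
    (algebraMap (𝓞 k) (𝓞 N) (algebraMap (𝓞 F) (𝓞 k) b))).2 h2
  have e : ((algebraMap (𝓞 k) (𝓞 N) (algebraMap (𝓞 F) (𝓞 k) b) : 𝓞 N) : N) =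
      algebraMap F N (b : F) := by
    rw [IsScalarTower.algebraMap_apply F k N]
    rfl
  rw [← e]
  exact h3

private theorem frobA_pow {F : Type*} [Field F] {Γ : Type*} [LinearOrderedCommGroupWithZero Γ]
    (v : Valuation F Γ) {a c : F} (ha : v a ≤ 1) (hc : v c ≤ 1) (h : v (a - c) < 1) (q : ℕ) :
    v (a ^ q - c ^ q) < 1 := by
  induction q with
  | zero => simp
  | succ q ih =>
    have e : a ^ (q + 1) - c ^ (q + 1) = a ^ q * (a - c) + c * (a ^ q - c ^ q) := by ring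
    rw [e]
    refine v.map_add_lt ?_ ?_
    · rw [map_mul, map_pow]
      exact (mul_le_of_le_one_left' (pow_le_one' ha q)).trans_lt h
    · rw [map_mul]
      exact (mul_le_of_le_one_left' hc).trans_lt ih

private theorem frobA_three {N : Type u} [Field N] [NumberField N] [Algebra K N] [DecidableEq N]
    {β : 𝓞 K}
    (hβ1 : (3 : 𝓞 K) ∣ β - 1) (W : HeightOneSpectrum (𝓞 N))
    (hW : W.valuation N (algebraMap K N (β : K)) < 1) : W.valuation N (3 : N) = 1 := by
  obtain ⟨c, hc⟩ := hβ1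
  refine le_antisymm (by exact_mod_cast v_nat_le (W.valuation N) 3) (not_lt.1 fun h1 => ?_)
  have e : (1 : N) = algebraMap K N (β : K) + -(3 * algebraMap K N (c : K)) := by
    have e2 := congrArg (fun z : 𝓞 K => algebraMap K N (z : K)) hc
    simp only [map_sub, map_one, map_mul, map_ofNat] at e2
    linear_combination -e2
  have h2 : W.valuation N (1 : N) < 1 := by
    conv_lhs => rw [e]
    refine Valuation.map_add_lt _ hW ?_
    rw [Valuation.map_neg, map_mul]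
    exact (mul_le_of_le_one_right' (v_alg_le _ c)).trans_lt h1
  rw [map_one] at h2
  exact lt_irrefl _ h2

section
variable {k N : Type u} [Field k] [NumberField k] [Algebra K k] [Field N] [NumberField N]
  [Algebra K N] [Algebra k N] [IsScalarTower K k N] [DecidableEq N]

omit [DecidableEq N] [Algebra K k] [Algebra K N] [IsScalarTower K k N] in
/-- the Frobenius on integral elements -/
private theorem frobA_frob (w : HeightOneSpectrum (𝓞 N)) (σ : Gal(N/k)) {q : ℕ} (hq : 0 < q)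
    (hσ : ∀ x : 𝓞 N, σ • x - x ^ q ∈ w.asIdeal) {a : N} (ha : w.valuation N a ≤ 1) :
    w.valuation N (a ^ q - σ a) < 1 := by
  obtain ⟨x, hx⟩ := exists_val_lt_of_int w ha 1
  have hx1 : w.valuation N (a - (x : N)) < 1 := by
    refine hx.trans_lt ?_
    rw [← WithZero.exp_zero, WithZero.exp_lt_exp]
    norm_num
  have hxi : w.valuation N (x : N) ≤ 1 := w.valuation_le_one x
  have hgp : gpl σ⁻¹ w = w := by
    apply HeightOneSpectrum.ext
    have hle : w.asIdeal ≤ (gpl σ⁻¹ w).asIdeal := by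
      intro y hy
      change (σ⁻¹)⁻¹ • y ∈ w.asIdeal
      rw [inv_inv]
      have h1 := hσ y
      have h2 : y ^ q ∈ w.asIdeal := Ideal.pow_mem_of_mem _ hy q hq
      have h3 := Ideal.add_mem _ h1 h2
      rwa [sub_add_cancel] at h3
    exact (w.isMaximal.eq_of_le (gpl σ⁻¹ w).isPrime.ne_top hle).symm
  have hgp' : gpl σ w = w := by
    have h1 := gpl_mul σ σ⁻¹ w
    rw [mul_inv_cancel, gpl_one, hgp] at h1
    exact h1.symm
  have hvσ : ∀ y : N, w.valuation N (σ y) = w.valuation N y := by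
    intro y
    have h1 := gpl_val σ w y
    rw [hgp'] at h1
    exact h1
  have hE : w.valuation N (((σ • x : 𝓞 N) : N) - (x : N) ^ q) < 1 := by
    have h1 := (w.valuation_lt_one_iff_mem (K := N) (σ • x - x ^ q)).2 (hσ x)
    exact h1
  have hx2 : ((σ • x : 𝓞 N) : N) = σ (x : N) := rfl
  have hG := frobA_pow (w.valuation N) ha hxi hx1 q
  have e : a ^ q - σ a = (a ^ q - (x : N) ^ q) +
      (-(((σ • x : 𝓞 N) : N) - (x : N) ^ q) + -σ (a - (x : N))) := by
    rw [map_sub, hx2]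
    ring
  rw [e]
  have hI : w.valuation N (-σ (a - (x : N))) < 1 := by
    rw [Valuation.map_neg, hvσ]
    exact hx1
  rw [← Valuation.map_neg] at hE
  exact Valuation.map_add_lt _ hG (Valuation.map_add_lt _ hE hI)

omit [DecidableEq N] in
/-- the generator of the norm -/
private theorem frobA_gen (w : HeightOneSpectrum (𝓞 N)) (h3 : w.valuation N (3 : N) = 1) :
    ∃ (β : 𝓞 K) (f : ℕ), Prime β ∧ (3 : 𝓞 K) ∣ β - 1 ∧
      w.valuation N (algebraMap K N (β : K)) < 1 ∧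
      S4.psi k (w.under (𝓞 k)).asIdeal = β ^ f ∧
      Ideal.absNorm (w.under (𝓞 k)).asIdeal = Ideal.absNorm (Ideal.span {β}) ^ f := by
  obtain ⟨v, hv⟩ : ∃ v, v = w.under (𝓞 k) := ⟨_, rfl⟩
  obtain ⟨u, hu⟩ : ∃ u, u = v.under (𝓞 K) := ⟨_, rfl⟩
  have hmem : ∀ b : 𝓞 K, b ∈ u.asIdeal → w.valuation N (algebraMap K N (b : K)) < 1 := by
    intro b hb
    rw [hu, hv] at hb
    exact frobA_mem (F := K) (k := k) w b hb
  have h3u : (3 : 𝓞 K) ∉ u.asIdeal := by
    intro h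
    have h1 := hmem 3 h
    have e : algebraMap K N ((3 : 𝓞 K) : K) = 3 := by
      have e1 : ((3 : 𝓞 K) : K) = 3 := map_ofNat (algebraMap (𝓞 K) K) 3
      rw [e1, map_ofNat]
    rw [e, h3] at h1
    exact lt_irrefl _ h1
  have hum : u.asIdeal.IsMaximal := u.isMaximal
  have hvm : v.asIdeal.IsMaximal := v.isMaximal
  have hlo : v.asIdeal.LiesOver u.asIdeal := ⟨by rw [hu]; rfl⟩
  have hrel : Ideal.relNorm (𝓞 K) v.asIdeal = u.asIdeal ^ v.asIdeal.inertiaDeg (𝓞 K) :=
    Ideal.relNorm_eq_pow_of_isMaximal v.asIdeal u.asIdeal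
  have hnrm := Ideal.absNorm_pow_inertiaDeg u.asIdeal v.asIdeal
  have hcop : IsCoprime u.asIdeal (Ideal.span {3}) := by
    rw [Ideal.isCoprime_iff_sup_eq]
    refine hum.1.2 _ (lt_of_le_of_ne le_sup_left ?_)
    intro h
    apply h3u
    rw [h]
    exact Ideal.mem_sup_right (Ideal.mem_span_singleton_self 3)
  obtain ⟨β, hβ1, hβs⟩ := S4.exists_gen u.asIdeal hcop
  have hβ0 : β ≠ 0 := by
    rintro rfl
    apply u.ne_bot
    rw [← hβs]
    simp
  have hβ : Prime β := by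
    have h1 := u.isPrime
    rw [← hβs] at h1
    exact (Ideal.span_singleton_prime hβ0).1 h1
  have hpow : (3 : 𝓞 K) ∣ β ^ v.asIdeal.inertiaDeg (𝓞 K) - 1 := by
    have h1 := sub_dvd_pow_sub_pow β 1 (v.asIdeal.inertiaDeg (𝓞 K))
    rw [one_pow] at h1
    exact hβ1.trans h1
  refine ⟨β, v.asIdeal.inertiaDeg (𝓞 K), hβ, hβ1, hmem β ?_, ?_, ?_⟩
  · rw [← hβs]
    exact Ideal.mem_span_singleton_self β
  · rw [← hv, S4.psi, hrel, ← hβs, Ideal.span_singleton_pow, S4.psiK_span _ hpow]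
  · rw [← hv, hβs, hnrm]

end

/-- a point of the kernel of reduction killed by an element prime to the place is zero -/
private theorem frobA_ker {F : Type*} [Field F] [Algebra K F] [DecidableEq F] {Γ : Type*}
    [LinearOrderedCommGroupWithZero Γ] (v : Valuation F Γ) {γ : 𝓞 K}
    (hγ : v (algebraMap K F (γ : K)) = 1) {X : Pt F} (hk : Ker v X) (hX : sm F γ X = 0) :
    X = 0 := by
  have h1 := ker_sm_t v hk γ
  rw [hX, tc_zero, zero_sub, Valuation.map_neg, map_mul, hγ, one_mul] at h1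
  refine ker_tc_zero v hk ?_
  by_contra hc
  have h0 : v (tc X) ≠ 0 := (Valuation.ne_zero_iff v).2 hc
  have hpos : 0 < v (tc X) := zero_lt_iff.2 h0
  have hr : v (tc X) < 1 := ker_tc_lt v hk
  have h4 : v (tc X) ^ 4 < v (tc X) := by
    calc v (tc X) ^ 4 < v (tc X) ^ 1 := pow_lt_pow_right_of_lt_one₀ hpos hr (by norm_num)
      _ = v (tc X) := pow_one _
  exact absurd h1 (not_le.2 h4)

/-- the place below the place below -/
private theorem frobA_under {k N L : Type*} [Field k] [NumberField k] [Field N] [NumberField N]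
    [Field L] [NumberField L] [Algebra k N] [Algebra k L] [Algebra N L] [IsScalarTower k N L]
    (W : HeightOneSpectrum (𝓞 L)) : (W.under (𝓞 N)).under (𝓞 k) = W.under (𝓞 k) := by
  apply HeightOneSpectrum.ext
  exact Ideal.under_under (A := 𝓞 k) (B := 𝓞 N) (𝔓 := W.asIdeal)

/-- the action on the image of a point -/
private theorem frobA_ga {k N L : Type u} [Field k] [NumberField k] [Algebra K k]
    [Field N] [NumberField N] [Algebra K N] [Algebra k N] [IsScalarTower K k N] [DecidableEq N]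
    [Field L] [NumberField L] [Algebra K L] [Algebra k L] [Algebra N L] [IsScalarTower K k L]
    [IsScalarTower K N L] [DecidableEq L] (σ : Gal(N/k)) (τ : Gal(L/k))
    (h : ∀ x : N, τ (algebraMap N L x) = algebraMap N L (σ x)) (P : Pt N) :
    ga τ (pm (IsScalarTower.toAlgHom K N L) P) = pm (IsScalarTower.toAlgHom K N L) (ga σ P) := by
  rcases eq_or_ne P 0 with rfl | hP
  · simp
  have h1 : pm (IsScalarTower.toAlgHom K N L) P ≠ 0 := fun h0 =>
    hP (pm_inj _ (h0.trans (map_zero _).symm))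
  have h2 : ga τ (pm (IsScalarTower.toAlgHom K N L) P) ≠ 0 := fun h0 =>
    h1 (pm_inj _ (h0.trans (map_zero _).symm))
  have h3 : ga σ P ≠ 0 := fun h0 => hP (pm_inj _ (h0.trans (map_zero _).symm))
  have h4 : pm (IsScalarTower.toAlgHom K N L) (ga σ P) ≠ 0 := fun h0 =>
    h3 (pm_inj _ (h0.trans (map_zero _).symm))
  refine pt_ext h2 h4 ?_ ?_
  · rw [xc_ga, xc_pm, xc_pm, xc_ga]
    exact h _
  · rw [yc_ga, yc_pm, yc_pm, yc_ga]
    exact h _

/-- a large rational integer does not divide a nonzero element -/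
private theorem frobA_ndvd {r : ℕ} {x : 𝓞 K} (hx : x ≠ 0) (hr : Ideal.absNorm (Ideal.span {x}) < r) :
    ¬ -(r : 𝓞 K) ∣ x := by
  intro h
  rw [neg_dvd] at h
  have h1 := Ideal.absNorm_dvd_absNorm_of_le ((Ideal.span_singleton_le_span_singleton).mpr h)
  rw [S4.u4_absNorm_p (K := K) r] at h1
  have h2 : Ideal.absNorm (Ideal.span {x}) ≠ 0 := by
    rw [Ne, Ideal.absNorm_eq_zero_iff, Ideal.span_singleton_eq_bot]
    exact hx
  have h3 := Nat.le_of_dvd (Nat.pos_of_ne_zero h2) h1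
  have h4 : r ≤ r ^ 2 := Nat.le_self_pow (by norm_num) r
  omega

/-- coprime annihilators -/
private theorem frobA_cop {F : Type*} [Field F] [Algebra K F] [DecidableEq F] {a b : 𝓞 K}
    (h : IsCoprime a b) {X : Pt F} (ha : sm F a X = 0) (hb : sm F b X = 0) : X = 0 := by
  obtain ⟨x, y, hxy⟩ := h
  have h1 : sm F (x * a + y * b) X = 0 := by
    rw [map_add, map_mul, map_mul]
    change sm F x (sm F a X) + sm F y (sm F b X) = 0
    rw [ha, hb, map_zero, map_zero, add_zero]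
  rw [hxy, map_one] at h1
  exact h1

private theorem frobA_mul {F : Type*} [Field F] [Algebra K F] [DecidableEq F] (a b : 𝓞 K)
    (X : Pt F) : sm F (a * b) X = sm F a (sm F b X) := by
  rw [map_mul]
  rfl

private theorem frobA_comm {F : Type*} [Field F] [Algebra K F] [DecidableEq F] (a b : 𝓞 K)
    (X : Pt F) : sm F a (sm F b X) = sm F b (sm F a X) := by
  rw [← frobA_mul, mul_comm, frobA_mul]

/-- the comparison of a root of unity -/
private theorem frobA_unit {ϖ g b u : 𝓞 K} (hϖ : Prime ϖ) (h3 : ¬ ϖ ∣ 3) (hg : ¬ ϖ ∣ g)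
    (hb : ¬ ϖ ∣ b) (hu : u = 1 ∨ 1 - u ∣ 3) (h : ϖ ∣ g * b - u * (g * b)) : u = 1 := by
  rcases hu with hu | hu
  · exact hu
  exfalso
  have e : g * b - u * (g * b) = (1 - u) * (g * b) := by ring
  rw [e] at h
  rcases hϖ.dvd_or_dvd h with h1 | h1
  · exact h3 (h1.trans hu)
  · rcases hϖ.dvd_or_dvd h1 with h2 | h2
    · exact hg h2
    · exact hb h2

/-- the main step over the field of `R` -/
private theorem frobA_main {k L : Type u} [Field k] [NumberField k] [Algebra K k]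
    [Field L] [NumberField L] [Algebra K L] [Algebra k L] [IsScalarTower K k L] [DecidableEq L]
    (W : HeightOneSpectrum (𝓞 L)) (h3 : W.valuation L (3 : L) = 1) (τ : Gal(L/k))
    (hτ : ∀ x : 𝓞 L, τ • x - x ^ (Ideal.absNorm (W.under (𝓞 k)).asIdeal) ∈ W.asIdeal)
    {γ ϖ β : 𝓞 K} {f : ℕ} (hβ : Prime β) (hβ1 : (3 : 𝓞 K) ∣ β - 1)
    (hW : W.valuation L (algebraMap K L (β : K)) < 1)
    (hnorm : Ideal.absNorm (W.under (𝓞 k)).asIdeal = Ideal.absNorm (Ideal.span {β}) ^ f)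
    (hγ : W.valuation L (algebraMap K L (γ : K)) = 1)
    (hϖ : W.valuation L (algebraMap K L (ϖ : K)) = 1)
    (hϖp : Prime ϖ) (hϖ3 : ¬ ϖ ∣ 3) (hϖγ : ¬ ϖ ∣ γ) (hϖβ : ¬ ϖ ∣ β)
    (hβγ : IsCoprime β γ) {P R : Pt L} (hP : sm L γ P = 0) (hR : Ord ϖ R)
    (hRτ : ga τ R = sm L (β ^ f) R) : ga τ P = sm L (β ^ f) P := by
  have hq : 0 < Ideal.absNorm (W.under (𝓞 k)).asIdeal := by
    rw [Nat.pos_iff_ne_zero, Ne, Ideal.absNorm_eq_zero_iff]
    exact (W.under (𝓞 k)).ne_bot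
  have hpid : IsPrincipalIdealRing (𝓞 K) := IsCyclotomicExtension.Rat.three_pid K
  have hcop : IsCoprime ϖ β := (hϖp.irreducible.coprime_iff_not_dvd).2 hϖβ
  have hRϖ : sm L ϖ R = 0 := (hR ϖ).2 dvd_rfl
  obtain ⟨X, hXdef⟩ : ∃ X, X = P + R := ⟨_, rfl⟩
  have hγϖ : W.valuation L (algebraMap K L ((γ * ϖ : 𝓞 K) : K)) = 1 := by
    have e : ((γ * ϖ : 𝓞 K) : K) = (γ : K) * (ϖ : K) := map_mul (algebraMap (𝓞 K) K) γ ϖ
    rw [e, map_mul, map_mul, hγ, hϖ, one_mul]
  have hX : sm L (γ * ϖ) X = 0 := by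
    rw [hXdef, map_add, frobA_mul γ ϖ R, hRϖ, map_zero, add_zero, frobA_mul, frobA_comm, hP,
      map_zero]
  have hγX : sm L γ X = sm L γ R := by rw [hXdef, map_add, hP, zero_add]
  have h3X : 3 • X ≠ 0 := by
    intro h0
    have h1 : sm L (3 * γ) R = 0 := by
      rw [frobA_mul, ← hγX, frobA_comm]
      have e : sm L (3 : 𝓞 K) X = 3 • X := by
        have h2 := sm_nat (F := L) 3 X
        rw [← h2]
        rfl
      rw [e, h0, map_zero]
    rcases hϖp.dvd_or_dvd ((hR _).1 h1) with h2 | h2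
    · exact hϖ3 h2
    · exact hϖγ h2
  have hX0 : X ≠ 0 := by
    rintro h0
    rw [h0, nsmul_zero] at h3X
    exact h3X rfl
  have hcop2 : IsCoprime (β ^ f) (γ * ϖ) := (hβγ.mul_right hcop.symm).pow_left
  have hit := pow_iterG hβ hβ1 W hW hγϖ hX h3X f
  have hnX : ¬ Ker (W.valuation L) X := fun hk => hX0 (frobA_ker _ hγϖ hk hX)
  have hfr := frobA_frob W τ hq hτ (not_ker _ hnX).2.2
  rw [hnorm] at hfr
  obtain ⟨b, hb⟩ : ∃ b, b = β ^ f := ⟨_, rfl⟩
  rw [← hb] at hit hcop2 hRτ ⊢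
  have hϖb : ¬ ϖ ∣ b := by
    intro h0
    rw [hb] at h0
    exact hϖβ (hϖp.dvd_of_dvd_pow h0)
  have hbX : sm L (γ * ϖ) (sm L b X) = 0 := by rw [frobA_comm, hX, map_zero]
  have hGX : sm L (γ * ϖ) (ga τ X) = 0 := by rw [← ga_sm, hX, map_zero]
  have n1 : ¬ Ker (W.valuation L) (sm L b X) := fun hk =>
    hX0 (frobA_cop hcop2 (frobA_ker _ hγϖ hk hbX) hX)
  have n2 : ¬ Ker (W.valuation L) (ga τ X) := fun hk =>
    hX0 (pm_inj _ ((frobA_ker _ hγϖ hk hGX).trans (map_zero _).symm))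
  have hy : W.valuation L (yc (sm L b X) - yc (ga τ X)) < 1 := by
    rw [yc_ga]
    have h1 := Valuation.map_add_lt _ hit hfr
    rwa [sub_add_sub_cancel] at h1
  have hom : S3.omO ^ 2 + S3.omO + 1 = (0 : 𝓞 K) := S4.omO_eq
  have key : ∀ u : 𝓞 K, (u = 1 ∨ 1 - u ∣ 3) → sm L b X = sm L u (ga τ X) →
      ga τ P = sm L b P := by
    intro u hu he
    have h1 : sm L (γ * b) R = sm L (u * (γ * b)) R := by
      have e1 : sm L γ (sm L b X) = sm L (γ * b) R := by
        rw [frobA_comm, hγX, frobA_comm, ← frobA_mul]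
      have e2 : sm L γ (sm L u (ga τ X)) = sm L (u * (γ * b)) R := by
        rw [frobA_comm, ← ga_sm, hγX, ga_sm, hRτ, ← frobA_mul γ, ← frobA_mul]
      rw [← e1, he, e2]
    have h2 := (hR.sm_eq_iff _ _).1 h1
    have h4 := frobA_unit hϖp hϖ3 hϖγ hϖb hu h2
    rw [h4, map_one] at he
    have h5 : sm L b X = ga τ X := he
    rw [hXdef, map_add, map_add, hRτ] at h5
    exact (add_right_cancel h5).symm
  have tc1 : sm L (γ * ϖ) (omH L (ga τ X)) = 0 := by
    rw [← sm_om, frobA_comm, hGX, map_zero]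
  have tc2 : sm L (γ * ϖ) (omH L (omH L (ga τ X))) = 0 := by
    rw [← sm_om (omH L (ga τ X)), frobA_comm, tc1, map_zero]
  rcases y_inj (W.valuation L) h3 n1 n2 hy with hk | hk | hk
  · have e := frobA_ker _ hγϖ hk (by rw [map_sub, hbX, hGX, sub_zero])
    refine key 1 (Or.inl rfl) ?_
    rw [sub_eq_zero.1 e, map_one]
    rfl
  · have e := frobA_ker _ hγϖ hk (by rw [map_sub, hbX, tc1, sub_zero])
    refine key S3.omO (Or.inr ⟨2 + S3.omO, ?_⟩) ?_
    · linear_combination hom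
    · rw [sub_eq_zero.1 e, sm_om]
  · have e := frobA_ker _ hγϖ hk (by rw [map_sub, hbX, tc2, sub_zero])
    refine key (S3.omO * S3.omO) (Or.inr ⟨1 - S3.omO, ?_⟩) ?_
    · linear_combination (2 - (S3.omO : 𝓞 K)) * hom
    · rw [sub_eq_zero.1 e, frobA_mul, sm_om, sm_om]

theorem exists_gamma (M : ℕ) : ∃ r : ℕ, M < r ∧ r.Prime ∧ r % 3 = 2 ∧ Prime (-(r : 𝓞 K)) ∧
    (3 : 𝓞 K) ∣ -(r : 𝓞 K) - 1 := by
  obtain ⟨r, hr, hrp, hrm⟩ := Nat.forall_exists_prime_gt_and_modEq M (q := 3) (a := 2)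
    (by norm_num) (by norm_num)
  have hr2 : r % 3 = 2 := hrm
  have i1 : Fact r.Prime := ⟨hrp⟩
  have hr0 : (r : 𝓞 K) ≠ 0 := Nat.cast_ne_zero.mpr hrp.ne_zero
  have hnu : Ideal.span {(r : 𝓞 K)} ≠ ⊤ := by
    intro h
    have h1 := S4.u4_absNorm_p (K := K) r
    rw [h, Ideal.absNorm_top] at h1
    have h2 := hrp.two_le
    nlinarith
  obtain ⟨P, hPm, hP⟩ := Ideal.exists_le_maximal _ hnu
  have hmem : (r : 𝓞 K) ∈ P := hP (Ideal.mem_span_singleton_self _)
  have i2 : P.IsPrime := hPm.isPrime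
  have e := S4.u4_prime_two (K := K) r hr2 om_spec.toInteger S4.omO_eq P hmem
  have hprime : Prime (r : 𝓞 K) := by
    rw [← Ideal.span_singleton_prime hr0, ← e]
    exact i2
  refine ⟨r, hr, hrp, hr2, hprime.neg, -((r / 3 + 1 : ℕ) : 𝓞 K), ?_⟩
  have e1 : (r : 𝓞 K) = ((3 * (r / 3) + 2 : ℕ) : 𝓞 K) := by
    have e2 : r = 3 * (r / 3) + 2 := by omega
    exact_mod_cast congrArg (fun n : ℕ => (n : 𝓞 K)) e2
  rw [e1]
  push_cast
  ring

/-- the Frobenius at a place `w` prime to `3` acts as `ψ` on the points killed by `γ` prime to `w` -/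
theorem frob_all {k N : Type u} [Field k] [NumberField k] [Algebra K k] [Field N] [NumberField N]
    [Algebra K N] [Algebra k N] [IsScalarTower K k N] [DecidableEq N] [IsGalois k N]
    (w : HeightOneSpectrum (𝓞 N)) (h3 : w.valuation N (3 : N) = 1) (σ : Gal(N/k))
    (hσ : ∀ x : 𝓞 N, σ • x - x ^ (Ideal.absNorm (w.under (𝓞 k)).asIdeal) ∈ w.asIdeal)
    {γ : 𝓞 K} (hγ : w.valuation N (algebraMap K N (γ : K)) = 1) {P : Pt N}
    (hP : sm N γ P = 0) : ga σ P = sm N (S4.psi k (w.under (𝓞 k)).asIdeal) P := by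
  classical
  obtain ⟨β, f, hβ, hβ1, hW, hpsi, hnorm⟩ := frobA_gen (k := k) w h3
  have hγ0 : γ ≠ 0 := by
    rintro rfl
    have e : ((0 : 𝓞 K) : K) = 0 := map_zero (algebraMap (𝓞 K) K)
    rw [e, map_zero, map_zero] at hγ
    exact zero_ne_one hγ
  have h30 : (3 : 𝓞 K) ≠ 0 := by norm_num
  obtain ⟨r, hr, hrp, hr3, hϖp, hϖ1⟩ := exists_gamma (Ideal.absNorm (Ideal.span {3 * γ * β}))
  have hnd := frobA_ndvd (mul_ne_zero (mul_ne_zero h30 hγ0) hβ.ne_zero) hr
  obtain ⟨ϖ, hϖdef⟩ : ∃ ϖ, ϖ = -(r : 𝓞 K) := ⟨_, rfl⟩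
  rw [← hϖdef] at hϖp hϖ1 hnd
  have hϖ3 : ¬ ϖ ∣ 3 := fun h => hnd ((h.mul_right _).mul_right _)
  have hϖγ : ¬ ϖ ∣ γ := fun h => hnd ((h.mul_left _).mul_right _)
  have hϖβ : ¬ ϖ ∣ β := fun h => hnd (h.mul_left _)
  have hpid : IsPrincipalIdealRing (𝓞 K) := IsCyclotomicExtension.Rat.three_pid K
  have hcop : IsCoprime ϖ β := (hϖp.irreducible.coprime_iff_not_dvd).2 hϖβ
  have hβγ : IsCoprime β γ := by
    refine (hβ.irreducible.coprime_iff_not_dvd).2 ?_
    rintro ⟨c, hc⟩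
    have e : (γ : K) = (β : K) * (c : K) := by
      rw [hc]
      exact map_mul (algebraMap (𝓞 K) K) β c
    rw [e, map_mul, map_mul] at hγ
    have h1 : w.valuation N (algebraMap K N (β : K)) * w.valuation N (algebraMap K N (c : K)) < 1 :=
      (mul_le_of_le_one_right' (v_alg_le _ c)).trans_lt hW
    rw [hγ] at h1
    exact lt_irrefl _ h1
  have hϖw : w.valuation N (algebraMap K N (ϖ : K)) = 1 := by
    refine le_antisymm (v_alg_le _ ϖ) (not_lt.1 fun h1 => ?_)
    obtain ⟨x, y, hxy⟩ := hcop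
    have e : (1 : N) = algebraMap K N (x : K) * algebraMap K N (ϖ : K) +
        algebraMap K N (y : K) * algebraMap K N (β : K) := by
      have e2 := congrArg (fun z : 𝓞 K => algebraMap K N (z : K)) hxy
      simp only [map_add, map_one, map_mul] at e2
      exact e2.symm
    have h2 : w.valuation N (1 : N) < 1 := by
      conv_lhs => rw [e]
      refine Valuation.map_add_lt _ ?_ ?_
      · rw [map_mul]
        exact (mul_le_of_le_one_left' (v_alg_le _ x)).trans_lt h1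
      · rw [map_mul]
        exact (mul_le_of_le_one_left' (v_alg_le _ y)).trans_lt hW
    rw [map_one] at h2
    exact lt_irrefl _ h2
  obtain ⟨L, iF, iNF, iKL, ikL, iNL, iT1, iT2, iT3, iG1, iG2, R, hR, _⟩ :=
    exists_ext k N hϖp hϖ1
  obtain ⟨W, hWw⟩ := frobA_over (L := L) w
  have hWk : W.under (𝓞 k) = w.under (𝓞 k) := by
    rw [← hWw]
    exact (frobA_under (k := k) (N := N) W).symm
  have hvK : ∀ a : 𝓞 K, algebraMap K L (a : K) = algebraMap N L (algebraMap K N (a : K)) :=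
    fun a => IsScalarTower.algebraMap_apply K N L _
  have hWβ : W.valuation L (algebraMap K L (β : K)) < 1 := by
    rw [hvK, val_map_lt, hWw]
    exact hW
  have hWγ : W.valuation L (algebraMap K L (γ : K)) = 1 := by
    rw [hvK, val_map_eq, hWw]
    exact hγ
  have hWϖ : W.valuation L (algebraMap K L (ϖ : K)) = 1 := by
    rw [hvK, val_map_eq, hWw]
    exact hϖw
  have hW3 : W.valuation L (3 : L) = 1 := by
    have h1 := (val_map_eq (L := L) W (3 : N)).2 (by rw [hWw]; exact h3)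
    rwa [map_ofNat] at h1
  have hσ' : ∀ x : 𝓞 N, σ • x - x ^ (Ideal.absNorm (W.under (𝓞 k)).asIdeal) ∈
      (W.under (𝓞 N)).asIdeal := by
    rw [hWk, hWw]
    exact hσ
  obtain ⟨τ, hτ1, hτ2⟩ := lift_frob_norm W σ hσ'
  have hrL : W.valuation L (r : L) = 1 := by
    have e : algebraMap K L (ϖ : K) = -(r : L) := by
      have e1 : (ϖ : K) = -(r : K) := by
        rw [hϖdef]
        change algebraMap (𝓞 K) K (-(r : 𝓞 K)) = _
        rw [map_neg, map_natCast]
      rw [e1, map_neg, map_natCast]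
    rw [e, Valuation.map_neg] at hWϖ
    exact hWϖ
  have hrR : r • R = 0 := by
    rw [← sm_nat]
    exact (hR _).2 ⟨-1, by rw [hϖdef]; ring⟩
  have hRτ := frob_psi (k := k) W hW3 τ hτ2 (n := r)
    ((Nat.coprime_primes hrp Nat.prime_three).2 (by rintro rfl; omega)) hrL hrR
  rw [hWk, hpsi] at hRτ
  have hPL : sm L γ (pm (IsScalarTower.toAlgHom K N L) P) = 0 := by
    rw [← pm_sm, hP, map_zero]
  have hfin := frobA_main (k := k) W hW3 τ hτ2 hβ hβ1 hWβ (by rw [hWk]; exact hnorm) hWγ hWϖ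
    hϖp hϖ3 hϖγ hϖβ hβγ hPL hR hRτ
  rw [frobA_ga σ τ hτ1, ← pm_sm] at hfin
  rw [hpsi]
  exact pm_inj _ hfin

end Pool.Agent.Lib.MP_1a91b9_ntX.OF
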