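import Pool.Agent.Lib.MP_1a91b9_ntT.DS.Frob

/-!
# The curve `y² + y = x³`: the Frobenius congruence for points killed by an element prime to the place

PROOF. `pow_frobG` is `DS.pow_frob` (ntT/DS/Frob.lean, copy the proof with its private lemmas) with `γ` instead of `n`: there `n • Q = 0`,
`W n = 1` are only used for: the images of `Q` and `sm β Q` are not in the kernel of reduction. Here: a point `X ≠ 0` with `sm γ X = 0`, `v γ = 1` is
not in the kernel (`ker_sm_t`: `v (γ t) ≤ v t ^ 4`, so `t = 0`, `ker_tc_zero`; as `ker_tors`).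
`pow_iterG`: induction on `f`: `X_i = sm (β^i) X`, `3 • X_i ≠ 0` (`β` is prime to `γ`: `W β < 1 = W γ`, `β` is prime so `x β + y γ = 1`, so `β^i` acts
injectively on the points killed by `γ`), hence `X_i ≠ 0` and `yc X_i ≠ 0` (`yc X = 0` gives `xc X = 0`, `X = ptZ`, `3 • ptZ = 0`: `three_Z`). By
`pow_frobG` `yc X_{f+1} = (yc X_f)^q` modulo `W`, `(yc X_f)^q = (yc X)^(q^f q)` modulo `W` (the ordinates are integral at `W` by `not_ker`).
-/

set_option autoImplicit false

namespace Pool.Agent.Lib.MP_1a91b9_ntX.OF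

open NumberField IsDedekindDomain WeierstrassCurve Pool.Agent.Lib.MP_1a91b9_ntT
open Pool.Agent.Lib.MP_1a91b9_ntT.DB Pool.Agent.Lib.MP_1a91b9_ntT.DS

universe u

/-- a place above `W` -/
private theorem PowG_over {N L : Type u} [Field N] [NumberField N] [Field L] [NumberField L]
    [Algebra N L] (W : HeightOneSpectrum (𝓞 N)) :
    ∃ W' : HeightOneSpectrum (𝓞 L), W'.under (𝓞 N) = W := by
  have i3 : W.asIdeal.IsPrime := W.isPrime
  obtain ⟨Q, hQ1, hQ2⟩ := (inferInstance : Nonempty (W.asIdeal.primesOver (𝓞 L)))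
  have hb : Q ≠ ⊥ := Ideal.ne_bot_of_mem_primesOver W.ne_bot ⟨hQ1, hQ2⟩
  refine ⟨⟨Q, hQ1, hb⟩, ?_⟩
  apply HeightOneSpectrum.ext
  exact hQ2.over.symm

/-- congruence of products -/
private theorem PowG_prod {F : Type*} [Field F] {Γ : Type*} [LinearOrderedCommGroupWithZero Γ]
    (v : Valuation F Γ) {ι : Type*} (s : Finset ι) (f : ι → F) (c : F) (hc : v c ≤ 1)
    (h : ∀ a ∈ s, v (f a - c) < 1) : v (∏ a ∈ s, f a - c ^ s.card) < 1 := by
  classical
  have hle : ∀ t : Finset ι, t ⊆ s → v (∏ a ∈ t, f a) ≤ 1 := by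
    intro t ht
    rw [map_prod]
    refine Finset.prod_le_one' fun a ha => ?_
    have h1 := h a (ht ha)
    have h2 : f a = (f a - c) + c := by ring
    rw [h2]
    exact v.map_add_le h1.le hc
  induction s using Finset.induction_on with
  | empty => simp
  | insert a s ha ih =>
    rw [Finset.prod_insert ha, Finset.card_insert_of_notMem ha]
    have h1 := ih (fun b hb => h b (Finset.mem_insert_of_mem hb))
      (fun t ht => hle t (ht.trans (Finset.subset_insert a s)))
    have h2 := h a (Finset.mem_insert_self a s)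
    have e : f a * ∏ x ∈ s, f x - c ^ (s.card + 1) =
        (f a - c) * ∏ x ∈ s, f x + c * (∏ x ∈ s, f x - c ^ s.card) := by ring
    rw [e]
    refine v.map_add_lt ?_ ?_
    · rw [map_mul]
      exact (mul_le_of_le_one_right' (hle s (Finset.subset_insert a s))).trans_lt h2
    · rw [map_mul]
      exact (mul_le_of_le_one_left' hc).trans_lt h1

/-- the norm of an element `1` modulo `3` is `1` modulo `3` -/
private theorem PowG_mod {β : 𝓞 K} (hβ1 : (3 : 𝓞 K) ∣ β - 1) :
    Ideal.absNorm (Ideal.span {β}) % 3 = 1 := by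
  obtain ⟨c, hc⟩ := hβ1
  obtain ⟨m, n, hmn⟩ := S3.exists_coords c
  have h1 : (β : K) = ((1 + 3 * m : ℤ) : K) + ((3 * n : ℤ) : K) * om := by
    have h2 : β = 1 + 3 * c := by linear_combination hc
    have h3 : (β : K) = 1 + 3 * (c : K) := by
      rw [h2]
      change algebraMap (𝓞 K) K (1 + 3 * c) = _
      rw [map_add, map_mul, map_one, map_ofNat]
    rw [h3, hmn]
    push_cast
    ring
  have h4 : embK (β : K) = ((1 + 3 * m : ℤ) : ℂ) + ((3 * n : ℤ) : ℂ) * zt := by
    rw [h1, map_add, map_mul, map_intCast, map_intCast, embK_om]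
  have h5 := S3.card_quot β h4
  have h6 : Nat.card (𝓞 K ⧸ Ideal.span {β}) = Ideal.absNorm (Ideal.span {β}) := rfl
  rw [h6] at h5
  have h7 : ((Ideal.absNorm (Ideal.span {β}) : ℕ) : ℤ) =
      3 * (2 * m + 3 * m ^ 2 - n - 3 * m * n + 3 * n ^ 2) + 1 := by
    rw [h5]
    ring
  omega

/-- congruence of powers -/
private theorem PowG_pow {F : Type*} [Field F] {Γ : Type*} [LinearOrderedCommGroupWithZero Γ]
    (v : Valuation F Γ) {a c : F} (ha : v a ≤ 1) (hc : v c ≤ 1) (h : v (a - c) < 1) (q : ℕ) :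
    v (a ^ q - c ^ q) < 1 := by
  induction q with
  | zero => simp
  | succ q ih =>
    have e : a ^ (q + 1) - c ^ (q + 1) = a ^ q * (a - c) + c * (a ^ q - c ^ q) := by ring
    rw [e]
    refine v.map_add_lt ?_ ?_
    · rw [map_mul, map_pow]
      exact (mul_le_of_le_one_left' (pow_le_one' ha q)).trans_lt h
    · rw [map_mul]
      exact (mul_le_of_le_one_left' hc).trans_lt ih

/-- the kernel of reduction has no point killed by an element which is a unit at `v` -/
private theorem PowG_ker {F : Type*} [Field F] [Algebra K F] [DecidableEq F] {Γ : Type*}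
    [LinearOrderedCommGroupWithZero Γ] (v : Valuation F Γ) {X : Pt F} (hX : Ker v X) {γ : 𝓞 K}
    (hγ : v (algebraMap K F (γ : K)) = 1) (h : sm F γ X = 0) : X = 0 := by
  by_contra hX0
  have h1 := ker_sm_t v hX γ
  rw [h, tc_zero, zero_sub, Valuation.map_neg, map_mul, hγ, one_mul] at h1
  have h0 : v (tc X) ≠ 0 := by
    intro h0
    rw [Valuation.zero_iff] at h0
    exact hX0 (ker_tc_zero v hX h0)
  have hpos : 0 < v (tc X) := zero_lt_iff.2 h0
  have hr : v (tc X) < 1 := ker_tc_lt v hX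
  have h3 : v (tc X) ^ 4 < v (tc X) := by
    calc v (tc X) ^ 4 = v (tc X) * v (tc X) ^ 3 := pow_succ' _ _
      _ < v (tc X) * 1 := mul_lt_mul_of_pos_left (pow_lt_one₀ zero_le hr (by norm_num)) hpos
      _ = v (tc X) := mul_one _
  exact absurd h1 (not_le.2 h3)

private theorem PowG_sm {F : Type*} [Field F] [Algebra K F] [DecidableEq F] (a b : 𝓞 K)
    (X : Pt F) : sm F a (sm F b X) = sm F b (sm F a X) := by
  have h1 : sm F (a * b) X = sm F (b * a) X := by rw [mul_comm]
  rw [map_mul, map_mul] at h1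
  exact h1

private theorem PowG_yc {F : Type*} [Field F] [Algebra K F] [DecidableEq F] {X : Pt F}
    (h3 : 3 • X ≠ 0) : yc X ≠ 0 := by
  intro h0
  rcases cases_pt X with rfl | ⟨x, y, h, rfl⟩
  · exact h3 (nsmul_zero 3)
  · rw [yc_mk] at h0
    subst h0
    have hx : x = 0 := by
      have h1 : x ^ 3 = 0 := by linear_combination -h
      exact pow_eq_zero_iff (by norm_num) |>.1 h1
    subst hx
    exact h3 three_Z

section
variable {N : Type u} [Field N] [NumberField N] [Algebra K N] [DecidableEq N] {β : 𝓞 K}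
  (hβ : Prime β) (hβ1 : (3 : 𝓞 K) ∣ β - 1) (W : HeightOneSpectrum (𝓞 N))
  (hW : W.valuation N (algebraMap K N (β : K)) < 1) {γ : 𝓞 K}
  (hγ : W.valuation N (algebraMap K N (γ : K)) = 1)
include hβ hβ1 hW hγ

theorem pow_frobG {Q : Pt N} (hQ : sm N γ Q = 0)
    (hQ1 : sm N β Q ≠ 0) (hQ2 : yc (sm N β Q) ≠ 0) :
    W.valuation N (yc (sm N β Q) - yc Q ^ (Ideal.absNorm (Ideal.span {β}))) < 1 := by
  classical
  obtain ⟨L, iF, iNF, iKL, _, iNL, _, iT, _, _, _, R, hR, _⟩ := exists_ext N N hβ hβ1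
  obtain ⟨W', hW'⟩ := PowG_over (L := L) W
  set v' := W'.valuation L with hv'
  have mlt : ∀ a : N, v' (algebraMap N L a) < 1 ↔ W.valuation N a < 1 := fun a => by
    rw [hv', val_map_lt, hW']
  have mle : ∀ a : N, v' (algebraMap N L a) ≤ 1 ↔ W.valuation N a ≤ 1 := fun a => by
    rw [hv', val_map_le, hW']
  have meq : ∀ a : N, v' (algebraMap N L a) = 1 ↔ W.valuation N a = 1 := fun a => by
    rw [hv', val_map_eq, hW']
  let f : N →ₐ[K] L := IsScalarTower.toAlgHom K N L
  have hf : ∀ a : N, f a = algebraMap N L a := fun a => rfl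
  obtain ⟨g⟩ := exists_emb L
  obtain ⟨T, hT, hcard⟩ := exists_isRes hβ.ne_zero
  have hQn : sm L γ (pm f Q) = 0 := by rw [← pm_sm, hQ, map_zero]
  have hsmQ : sm L β (pm f Q) = pm f (sm N β Q) := (pm_sm f β Q).symm
  have hP : sm L β (pm f Q) ≠ 0 := by
    rw [hsmQ]
    intro h0
    exact hQ1 (pm_inj f (h0.trans (map_zero _).symm))
  have hP0 : yc (sm L β (pm f Q)) ≠ 0 := by
    rw [hsmQ, yc_pm]
    intro h0
    exact hQ2 (f.injective (h0.trans (map_zero _).symm))
  have hdist := dist_two g hβ.ne_zero hβ1 hT hR hP hP0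
  have hvβ : v' (algebraMap K L (β : K)) < 1 := by
    rw [IsScalarTower.algebraMap_apply K N L, mlt]
    exact hW
  have hKR : Ker v' R := ker_of_val v' hβ hβ1 hR hvβ
  have hKa : ∀ a : 𝓞 K, Ker v' (sm L a R) := fun a => ker_sm v' hKR a
  have hvn : v' (algebraMap K L (γ : K)) = 1 := by
    rw [IsScalarTower.algebraMap_apply K N L, meq]
    exact hγ
  have hKS : ¬ Ker v' (ptS L) := by
    rintro (h0 | h0)
    · exact S_ne_zero h0
    · rw [ptS, xc_mk, Valuation.map_neg, map_one] at h0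
      exact lt_irrefl _ h0
  have hKQ : ¬ Ker v' (pm f Q) := by
    intro h0
    have h1 := PowG_ker v' h0 hvn hQn
    rw [h1, map_zero] at hP
    exact hP rfl
  have hKQ' : ¬ Ker v' (sm L β (pm f Q)) := by
    intro h0
    refine hP (PowG_ker v' h0 hvn ?_)
    rw [PowG_sm, hQn, map_zero]
  have hyQ := (not_ker v' hKQ).2.2
  have hyQ' := (not_ker v' hKQ').2.2
  have hA := PowG_prod v' T (fun a => yc (ptS L + sm L a R)) (omF L) (v_om v').le
    (fun a _ => by
      have h1 := (add_ker v' hKS (hKa a)).2.2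
      rw [ptS, yc_mk] at h1
      exact h1.trans_lt (ker_tc_lt v' (hKa a)))
  have hB := PowG_prod v' T (fun a => yc (pm f Q + sm L a R)) (yc (pm f Q)) hyQ
    (fun a _ => (add_ker v' hKQ (hKa a)).2.2.trans_lt (ker_tc_lt v' (hKa a)))
  have hp3 := PowG_mod hβ1
  have hom : omF L ^ T.card = 1 := by
    obtain ⟨m, hm⟩ : ∃ m, T.card = 3 * m := ⟨T.card / 3, by omega⟩
    rw [hm, pow_mul, omF_cube, one_pow]
  rw [hom] at hA
  have hC : v' (yc (sm L β (pm f Q)) - yc (pm f Q) ^ (Ideal.absNorm (Ideal.span {β}))) < 1 := by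
    have e : yc (sm L β (pm f Q)) - yc (pm f Q) ^ (Ideal.absNorm (Ideal.span {β})) =
        yc (sm L β (pm f Q)) * -(∏ a ∈ T, yc (ptS L + sm L a R) - 1) +
        yc (pm f Q) * (∏ a ∈ T, yc (pm f Q + sm L a R) - yc (pm f Q) ^ T.card) := by
      have e1 : yc (pm f Q) ^ (Ideal.absNorm (Ideal.span {β})) =
          yc (pm f Q) * yc (pm f Q) ^ T.card := by
        rw [← hcard, pow_succ']
      rw [e1]
      linear_combination hdist
    rw [e]
    refine v'.map_add_lt ?_ ?_
    · rw [map_mul, Valuation.map_neg]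
      exact (mul_le_of_le_one_left' hyQ').trans_lt hA
    · rw [map_mul]
      exact (mul_le_of_le_one_left' hyQ).trans_lt hB
  rw [← mlt, map_sub, map_pow]
  rw [hsmQ, yc_pm, yc_pm, hf, hf] at hC
  exact hC

omit hβ1 in
private theorem PowG_inj {Y : Pt N} (hY : sm N γ Y = 0) (hb : sm N β Y = 0) : Y = 0 := by
  have : IsPrincipalIdealRing (𝓞 K) := IsCyclotomicExtension.Rat.three_pid K
  have hnd : ¬ β ∣ γ := by
    rintro ⟨c, hc⟩
    have h1 : algebraMap K N (γ : K) = algebraMap K N (β : K) * algebraMap K N (c : K) := by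
      rw [hc, ← map_mul]
      rfl
    rw [h1, map_mul] at hγ
    have h2 : W.valuation N (algebraMap K N (β : K)) * W.valuation N (algebraMap K N (c : K)) < 1 :=
      (mul_le_of_le_one_right' (v_alg_le _ c)).trans_lt hW
    rw [hγ] at h2
    exact lt_irrefl _ h2
  obtain ⟨x, y, hxy⟩ := hβ.irreducible.coprime_iff_not_dvd.2 hnd
  have h1 : sm N (x * β + y * γ) Y = 0 := by
    rw [map_add, map_mul, map_mul]
    change sm N x (sm N β Y) + sm N y (sm N γ Y) = 0
    rw [hb, hY, map_zero, map_zero, add_zero]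
  rw [hxy, map_one] at h1
  exact h1

omit hβ1 in
private theorem PowG_three {X : Pt N} (hX : sm N γ X = 0) (h3 : 3 • X ≠ 0) (f : ℕ) :
    3 • sm N (β ^ f) X ≠ 0 := by
  induction f with
  | zero =>
    rw [pow_zero, map_one]
    exact h3
  | succ f ih =>
    intro h0
    apply ih
    have e : sm N (β ^ (f + 1)) X = sm N β (sm N (β ^ f) X) := by
      rw [pow_succ', map_mul]
      rfl
    rw [e, ← map_nsmul] at h0
    refine PowG_inj hβ W hW hγ ?_ h0
    rw [map_nsmul, PowG_sm, hX, map_zero, nsmul_zero]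

theorem pow_iterG {X : Pt N} (hX : sm N γ X = 0) (h3 : 3 • X ≠ 0) (f : ℕ) :
    W.valuation N (yc (sm N (β ^ f) X) -
      yc X ^ (Ideal.absNorm (Ideal.span {β}) ^ f)) < 1 := by
  have hint : ∀ i : ℕ, W.valuation N (yc (sm N (β ^ i) X)) ≤ 1 := by
    intro i
    have h4 := PowG_three hβ W hW hγ hX h3 i
    have hk : ¬ Ker (W.valuation N) (sm N (β ^ i) X) := by
      intro h0
      apply h4
      rw [PowG_ker (W.valuation N) h0 hγ (by rw [PowG_sm, hX, map_zero]), nsmul_zero]
    exact (not_ker (W.valuation N) hk).2.2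
  have hX1 : W.valuation N (yc X) ≤ 1 := by
    have h1 := hint 0
    rw [pow_zero, map_one] at h1
    exact h1
  induction f with
  | zero =>
    rw [pow_zero, map_one, pow_zero, pow_one]
    have e : yc ((1 : AddMonoid.End (Pt N)) X) = yc X := rfl
    rw [e, sub_self, map_zero]
    exact zero_lt_one
  | succ f ih =>
    have e : sm N (β ^ (f + 1)) X = sm N β (sm N (β ^ f) X) := by
      rw [pow_succ', map_mul]
      rfl
    have h4 := PowG_three hβ W hW hγ hX h3 (f + 1)
    have h1 := pow_frobG hβ hβ1 W hW hγ (Q := sm N (β ^ f) X)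
      (by rw [PowG_sm, hX, map_zero])
      (by
        rw [← e]
        intro h0
        rw [h0] at h4
        exact h4 (nsmul_zero 3))
      (by rw [← e]; exact PowG_yc h4)
    rw [← e] at h1
    have h2 := PowG_pow (W.valuation N) (hint f) (by rw [map_pow]; exact pow_le_one' hX1 _) ih
      (Ideal.absNorm (Ideal.span {β}))
    have e2 : yc (sm N (β ^ (f + 1)) X) -
        yc X ^ (Ideal.absNorm (Ideal.span {β}) ^ (f + 1)) =
        (yc (sm N (β ^ (f + 1)) X) -
          yc (sm N (β ^ f) X) ^ (Ideal.absNorm (Ideal.span {β}))) +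
        (yc (sm N (β ^ f) X) ^ (Ideal.absNorm (Ideal.span {β})) -
          (yc X ^ (Ideal.absNorm (Ideal.span {β}) ^ f)) ^
            (Ideal.absNorm (Ideal.span {β}))) := by
      rw [pow_succ (Ideal.absNorm (Ideal.span {β})) f, pow_mul]
      ring
    rw [e2]
    exact Valuation.map_add_lt _ h1 h2

end

end Pool.Agent.Lib.MP_1a91b9_ntX.OF
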